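import Pool.Agent.D0H34.KC.Stm3

/-!
# Project KC, third round, module EP: `f ≡ x ^ (n - 1) (x - 1)` modulo `p`, `f(0)` exactly divisible by `p`

Hensel's lemma at the simple root `1`; the quotient `f / (x - t)` is an Eisenstein polynomial.
-/

set_option autoImplicit false

open Polynomial

namespace Pool.Agent.D0H42.KC

open Pool.Agent.D0H34.KC

theorem aeval_one {p : ℕ} [Fact p.Prime] (g : ℤ[X]) : aeval (1 : ℤ_[p]) g = ((g.eval 1 : ℤ) : ℤ_[p]) := by
  have h := aeval_algebraMap_apply ℤ_[p] (1 : ℤ) g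
  rw [map_one] at h
  rw [h, coe_aeval_eq_eval]
  rfl

/-- Hensel: a root of `f` near `1` -/
theorem root {p : ℕ} [Fact p.Prime] {n : ℕ} {f R : ℤ[X]} (hn : 3 ≤ n)
    (hf : f = X ^ n - X ^ (n - 1) + C (p : ℤ) * R) : ∃ t : ℤ_[p], aeval t f = 0 ∧ ‖t - 1‖ < 1 := by
  have hp : p.Prime := Fact.out
  have e0 : f.eval 1 = p * R.eval 1 := by
    rw [hf]
    simp
  have e1 : f.derivative.eval 1 = 1 + p * R.derivative.eval 1 := by
    have h1 : ((n - 1 : ℕ) : ℤ) = (n : ℤ) - 1 := by omega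
    rw [hf]
    simp only [derivative_add, derivative_sub, derivative_X_pow, derivative_mul, derivative_C, zero_mul, zero_add,
      eval_add, eval_sub, eval_mul, eval_C, eval_pow, eval_X, one_pow, mul_one]
    rw [h1]
    ring
  have n0 : ‖aeval (1 : ℤ_[p]) f‖ < 1 := by
    rw [aeval_one, e0]
    exact (PadicInt.norm_int_lt_one_iff_dvd _).2 (Dvd.intro _ rfl)
  have n1 : ‖aeval (1 : ℤ_[p]) f.derivative‖ = 1 := by
    rw [aeval_one, e1]
    apply le_antisymm (PadicInt.norm_le_one _)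
    by_contra hlt
    have h2 := (PadicInt.norm_int_lt_one_iff_dvd _).1 (not_le.1 hlt)
    have h3 : (p : ℤ) ∣ 1 := (dvd_add_left (Dvd.intro _ rfl)).1 h2
    have h4 : (1 : ℤ) < p := by exact_mod_cast hp.one_lt
    exact absurd (Int.le_of_dvd one_pos h3) (not_le.2 h4)
  obtain ⟨t, ht0, ht1, -, -⟩ := hensels_lemma (p := p) (F := f) (a := (1 : ℤ_[p])) (by rw [n1]; simpa using n0)
  refine ⟨t, ht0, ?_⟩
  rw [n1] at ht1
  exact ht1

theorem t_EP : S_EP := by
  intro n p _ f R hn hfm hfn hf hp2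
  obtain ⟨t, ht0, ht1⟩ := root (p := p) hn hf
  let φ : ℤ_[p] →+* ZMod p := PadicInt.toZMod
  have hker : ∀ x : ℤ_[p], x ∈ IsLocalRing.maximalIdeal ℤ_[p] ↔ φ x = 0 := by
    intro x
    rw [← PadicInt.ker_toZMod, RingHom.mem_ker]
  have hφt : φ t = 1 := by
    have h1 : t - 1 ∈ IsLocalRing.maximalIdeal ℤ_[p] := by
      rw [IsLocalRing.mem_maximalIdeal]
      exact PadicInt.mem_nonunits.2 ht1
    have h2 := (hker _).1 h1
    rw [map_sub, map_one] at h2
    exact sub_eq_zero.1 h2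
  set F : ℤ_[p][X] := f.map (Int.castRingHom ℤ_[p]) with hF
  have hFm : F.Monic := hfm.map _
  have hFn : F.natDegree = n := by rw [hF, hfm.natDegree_map, hfn]
  have hFt : F.IsRoot t := by
    rw [IsRoot.def, hF, eval_map]
    have h1 : algebraMap ℤ ℤ_[p] = Int.castRingHom ℤ_[p] := RingHom.ext_int _ _
    rw [aeval_def, h1] at ht0
    exact ht0
  set E : ℤ_[p][X] := F /ₘ (X - C t) with hEdef
  have hE : (X - C t) * E = F := mul_divByMonic_eq_iff_isRoot.2 hFt
  have hEm : E.Monic := Monic.of_mul_monic_left (monic_X_sub_C t) (by rw [hE]; exact hFm)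
  have hEn : E.natDegree = n - 1 := by
    have h1 := (monic_X_sub_C t).natDegree_mul hEm
    rw [hE, hFn, natDegree_X_sub_C] at h1
    omega
  have hFφ : F.map φ = X ^ n - X ^ (n - 1) := by
    have h1 : φ.comp (Int.castRingHom ℤ_[p]) = Int.castRingHom (ZMod p) := RingHom.ext_int _ _
    rw [hF, map_map, h1, hf]
    simp
  have hEφ : E.map φ = X ^ (n - 1) := by
    have h1 := congrArg (Polynomial.map φ) hE
    rw [Polynomial.map_mul, hFφ, Polynomial.map_sub, map_X, map_C, hφt] at h1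
    have h2 : (X : (ZMod p)[X]) ^ n - X ^ (n - 1) = (X - C 1) * X ^ (n - 1) := by
      rw [sub_mul, map_one, one_mul, ← pow_succ', show n - 1 + 1 = n by omega]
    rw [h2] at h1
    exact mul_left_cancel₀ (X_sub_C_ne_zero 1) h1
  have hirr : Irreducible E := by
    have hei : E.IsEisensteinAt (IsLocalRing.maximalIdeal ℤ_[p]) := by
      refine ⟨?_, ?_, ?_⟩
      · rw [hEm.leadingCoeff, hker, map_one]
        exact one_ne_zero
      · intro j hj
        rw [hker, ← coeff_map, hEφ, coeff_X_pow, if_neg]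
        omega
      · intro h
        rw [PadicInt.maximalIdeal_eq_span_p, Ideal.span_singleton_pow, Ideal.mem_span_singleton] at h
        have h1 : F.coeff 0 = (X - C t).coeff 0 * E.coeff 0 := by rw [← mul_coeff_zero, hE]
        have h2 : (p : ℤ_[p]) ^ 2 ∣ F.coeff 0 := by
          rw [h1]
          exact Dvd.dvd.mul_left h _
        have h3 : F.coeff 0 = ((f.eval 0 : ℤ) : ℤ_[p]) := by
          rw [hF, coeff_map, coeff_zero_eq_eval_zero]
          rfl
        rw [h3, PadicInt.pow_p_dvd_int_iff] at h2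
        exact hp2 (by exact_mod_cast h2)
    exact hei.irreducible (IsLocalRing.maximalIdeal.isMaximal _).isPrime hEm.isPrimitive (by omega)
  refine ⟨(t : ℚ_[p]), E.map (algebraMap ℤ_[p] ℚ_[p]), hEm.map _,
    (hEm.irreducible_iff_irreducible_map_fraction_map (K := ℚ_[p])).1 hirr, ?_⟩
  have h1 : (algebraMap ℤ_[p] ℚ_[p]).comp (Int.castRingHom ℤ_[p]) = Int.castRingHom ℚ_[p] := RingHom.ext_int _ _
  have h2 : f.map (Int.castRingHom ℚ_[p]) = F.map (algebraMap ℤ_[p] ℚ_[p]) := by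
    rw [hF, map_map, h1]
  rw [h2, ← hE, Polynomial.map_mul, Polynomial.map_sub, map_X, map_C]
  rfl

end Pool.Agent.D0H42.KC
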